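import Mathlib

/-!
# Law/G: the length of the section of the region at height `y`

For `T ≥ 1`, `y > 0` and `m = min K (y ^ 2 / T ^ 2)` the real `x` with `|y ^ 2 - x ^ 3| ≤ K` and
`T |y ^ 2 - x ^ 3| ^ (1 / 2) < y` form an interval with ends `(y ^ 2 - m) ^ (1 / 3)`,
`(y ^ 2 + m) ^ (1 / 3)`. `gg K T y` is its length (and `0` for `y ≤ 0`).
-/

set_option autoImplicit false

namespace Pool.Agent.Work.MP_f2148a_nt.Law

/-- `m = min K (y ^ 2 / T ^ 2)` for `y ≥ 0` -/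
noncomputable def mm (K T y : ℝ) : ℝ := min K ((max y 0) ^ 2 / T ^ 2)

/-- the upper end -/
noncomputable def up (K T y : ℝ) : ℝ := ((max y 0) ^ 2 + mm K T y) ^ (1 / 3 : ℝ)

/-- the lower end -/
noncomputable def lo (K T y : ℝ) : ℝ := ((max y 0) ^ 2 - mm K T y) ^ (1 / 3 : ℝ)

/-- the length of the section -/
noncomputable def gg (K T y : ℝ) : ℝ := up K T y - lo K T y

section

variable {K T : ℝ}

theorem mm_nonneg (hK : 0 ≤ K) (y : ℝ) : 0 ≤ mm K T y :=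
  le_min hK (by positivity)

theorem mm_le_sq (hT : 1 ≤ T) (y : ℝ) : mm K T y ≤ (max y 0) ^ 2 := by
  refine (min_le_right _ _).trans ?_
  have hT2 : (1 : ℝ) ≤ T ^ 2 := one_le_pow₀ hT
  exact div_le_self (sq_nonneg _) hT2

theorem mm_zero {y : ℝ} (hK : 0 ≤ K) (hy : y ≤ 0) : mm K T y = 0 := by
  unfold mm
  rw [max_eq_right hy]
  simp [hK]

theorem cube_rpow {x : ℝ} (hx : 0 ≤ x) : (x ^ (1 / 3 : ℝ)) ^ 3 = x := by
  rw [← Real.rpow_natCast, ← Real.rpow_mul hx]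
  norm_num

theorem up_cube (hK : 0 ≤ K) (y : ℝ) : up K T y ^ 3 = (max y 0) ^ 2 + mm K T y :=
  cube_rpow (add_nonneg (sq_nonneg _) (mm_nonneg hK y))

theorem lo_cube (hT : 1 ≤ T) (y : ℝ) : lo K T y ^ 3 = (max y 0) ^ 2 - mm K T y :=
  cube_rpow (sub_nonneg.2 (mm_le_sq hT y))

theorem up_nonneg (hK : 0 ≤ K) (y : ℝ) : 0 ≤ up K T y :=
  Real.rpow_nonneg (add_nonneg (sq_nonneg _) (mm_nonneg hK y)) _

theorem lo_nonneg (hT : 1 ≤ T) (y : ℝ) : 0 ≤ lo K T y :=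
  Real.rpow_nonneg (sub_nonneg.2 (mm_le_sq hT y)) _

theorem lo_le_up (hK : 0 ≤ K) (hT : 1 ≤ T) (y : ℝ) : lo K T y ≤ up K T y :=
  Real.rpow_le_rpow (sub_nonneg.2 (mm_le_sq hT y)) (by have := mm_nonneg (T := T) hK y; linarith)
    (by norm_num)

theorem gg_nonneg (hK : 0 ≤ K) (hT : 1 ≤ T) (y : ℝ) : 0 ≤ gg K T y :=
  sub_nonneg.2 (lo_le_up hK hT y)

theorem gg_zero (hK : 0 ≤ K) {y : ℝ} (hy : y ≤ 0) : gg K T y = 0 := by
  unfold gg up lo
  rw [mm_zero hK hy]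
  simp

/-- the basic identity -/
theorem gg_mul (hK : 0 ≤ K) (hT : 1 ≤ T) (y : ℝ) :
    gg K T y * (up K T y ^ 2 + up K T y * lo K T y + lo K T y ^ 2) = 2 * mm K T y := by
  have h1 := up_cube (T := T) hK y
  have h2 := lo_cube (K := K) hT y
  unfold gg
  linear_combination h1 - h2

theorem gg_cube_le (hK : 0 ≤ K) (hT : 1 ≤ T) (y : ℝ) : gg K T y ^ 3 ≤ 2 * mm K T y := by
  have h1 := gg_mul hK hT y
  have h2 := gg_nonneg hK hT y
  have h3 := lo_nonneg (K := K) hT y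
  have h4 := lo_le_up hK hT y
  have h5 : gg K T y ^ 2 ≤ up K T y ^ 2 + up K T y * lo K T y + lo K T y ^ 2 := by
    unfold gg
    nlinarith [mul_nonneg (h3.trans h4) h3]
  calc gg K T y ^ 3 = gg K T y * gg K T y ^ 2 := by ring
    _ ≤ gg K T y * (up K T y ^ 2 + up K T y * lo K T y + lo K T y ^ 2) :=
        mul_le_mul_of_nonneg_left h5 h2
    _ = _ := h1

theorem gg_le (hK : 0 ≤ K) (hT : 1 ≤ T) (y : ℝ) : gg K T y ≤ 2 * K ^ (1 / 3 : ℝ) := by
  have h1 := gg_cube_le hK hT y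
  have h2 : mm K T y ≤ K := min_le_left _ _
  have h3 : (2 * K ^ (1 / 3 : ℝ)) ^ 3 = 8 * K := by
    rw [mul_pow, cube_rpow hK]
    norm_num
  have h4 : 0 ≤ 2 * K ^ (1 / 3 : ℝ) := by positivity
  refine le_of_pow_le_pow_left₀ (by norm_num : 3 ≠ 0) h4 ?_
  rw [h3]
  linarith

/-- the decay -/
theorem gg_mm (hK : 0 ≤ K) (hT : 1 ≤ T) {y : ℝ} (hy : 0 < y) :
    gg K T y ≤ 2 * mm K T y * y ^ (-(4 / 3) : ℝ) := by
  have h1 := gg_mul hK hT y
  have h2 := gg_nonneg hK hT y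
  have h3 := lo_nonneg (K := K) hT y
  have h4 := up_nonneg (T := T) hK y
  have h5 : (max y 0) = y := max_eq_left hy.le
  have h6 : y ^ (2 / 3 : ℝ) ≤ up K T y := by
    unfold up
    rw [h5]
    calc y ^ (2 / 3 : ℝ) = (y ^ 2) ^ (1 / 3 : ℝ) := by
          rw [← Real.rpow_natCast, ← Real.rpow_mul hy.le]
          norm_num
      _ ≤ _ := Real.rpow_le_rpow (sq_nonneg _) (by have := mm_nonneg (T := T) hK y; linarith)
          (by norm_num)
  have h7 : (0 : ℝ) < y ^ (2 / 3 : ℝ) := Real.rpow_pos_of_pos hy _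
  have h8 : y ^ (4 / 3 : ℝ) ≤ up K T y ^ 2 + up K T y * lo K T y + lo K T y ^ 2 := by
    have e : y ^ (4 / 3 : ℝ) = (y ^ (2 / 3 : ℝ)) ^ 2 := by
      rw [← Real.rpow_natCast, ← Real.rpow_mul hy.le]
      norm_num
    rw [e]
    nlinarith [mul_nonneg h4 h3, sq_nonneg (lo K T y)]
  have h9 : (0 : ℝ) < y ^ (4 / 3 : ℝ) := Real.rpow_pos_of_pos hy _
  rw [Real.rpow_neg hy.le, ← div_eq_mul_inv, le_div_iff₀ h9, ← h1]
  exact mul_le_mul_of_nonneg_left h8 h2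

theorem gg_decay (hK : 0 ≤ K) (hT : 1 ≤ T) {y : ℝ} (hy : 0 < y) :
    gg K T y ≤ 2 * K * y ^ (-(4 / 3) : ℝ) := by
  refine (gg_mm hK hT hy).trans ?_
  have h2 : mm K T y ≤ K := min_le_left _ _
  have h3 : 0 ≤ y ^ (-(4 / 3) : ℝ) := Real.rpow_nonneg hy.le _
  exact mul_le_mul_of_nonneg_right (by linarith) h3

theorem gg_continuous : Continuous (gg K T) := by
  unfold gg up lo mm
  refine Continuous.sub ?_ ?_
  · refine Continuous.rpow_const ?_ (fun _ => Or.inr (by norm_num))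
    fun_prop
  · refine Continuous.rpow_const ?_ (fun _ => Or.inr (by norm_num))
    fun_prop

/-- increasing up to `T √K` -/
theorem gg_mono (hK : 0 ≤ K) (hT : 1 ≤ T) (x y : ℝ) (hxy : x ≤ y) (hy : y ≤ T * √K) :
    gg K T x ≤ gg K T y := by
  have hT0 : 0 < T := by linarith
  have key : ∀ z : ℝ, z ≤ T * √K → gg K T z =
      ((1 + 1 / T ^ 2) ^ (1 / 3 : ℝ) - (1 - 1 / T ^ 2) ^ (1 / 3 : ℝ)) *
        ((max z 0) ^ 2) ^ (1 / 3 : ℝ) := by
    intro z hz
    have h1 : (max z 0) ^ 2 / T ^ 2 ≤ K := by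
      rw [div_le_iff₀ (by positivity)]
      have h2 : max z 0 ≤ T * √K := max_le hz (by positivity)
      have h3 : (max z 0) ^ 2 ≤ (T * √K) ^ 2 := pow_le_pow_left₀ (le_max_right _ _) h2 2
      rw [mul_pow, Real.sq_sqrt hK] at h3
      linarith
    have h2 : mm K T z = (max z 0) ^ 2 / T ^ 2 := min_eq_right h1
    have hT2 : (1 : ℝ) ≤ T ^ 2 := one_le_pow₀ hT
    have h5 : (0 : ℝ) ≤ 1 - 1 / T ^ 2 := by
      rw [sub_nonneg, div_le_one (by positivity)]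
      exact hT2
    unfold gg up lo
    rw [h2]
    have e1 : (max z 0) ^ 2 + (max z 0) ^ 2 / T ^ 2 = (1 + 1 / T ^ 2) * (max z 0) ^ 2 := by ring
    have e2 : (max z 0) ^ 2 - (max z 0) ^ 2 / T ^ 2 = (1 - 1 / T ^ 2) * (max z 0) ^ 2 := by ring
    rw [e1, e2, Real.mul_rpow (by positivity) (sq_nonneg _), Real.mul_rpow h5 (sq_nonneg _)]
    ring
  rw [key x (hxy.trans hy), key y hy]
  have h5 : (0 : ℝ) ≤ 1 - 1 / T ^ 2 := by
    rw [sub_nonneg, div_le_one (by positivity)]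
    exact one_le_pow₀ hT
  refine mul_le_mul_of_nonneg_left ?_ ?_
  · refine Real.rpow_le_rpow (sq_nonneg _) ?_ (by norm_num)
    exact pow_le_pow_left₀ (le_max_right _ _) (max_le_max_right 0 hxy) 2
  · rw [sub_nonneg]
    refine Real.rpow_le_rpow h5 ?_ (by norm_num)
    have : (0 : ℝ) ≤ 1 / T ^ 2 := by positivity
    linarith

/-- decreasing from `T √K` on -/
theorem gg_anti (hK : 0 ≤ K) (hT : 1 ≤ T) (x y : ℝ) (hx : T * √K ≤ x) (hxy : x ≤ y) :
    gg K T y ≤ gg K T x := by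
  have hT0 : 0 < T := by linarith
  have hc : 0 ≤ T * √K := by positivity
  have key : ∀ z : ℝ, T * √K ≤ z → mm K T z = K := by
    intro z hz
    refine min_eq_left ?_
    rw [le_div_iff₀ (by positivity), max_eq_left (hc.trans hz)]
    have h3 : (T * √K) ^ 2 ≤ z ^ 2 := pow_le_pow_left₀ hc hz 2
    rw [mul_pow, Real.sq_sqrt hK] at h3
    linarith
  have kx := key x hx
  have ky := key y (hx.trans hxy)
  have m2 : (max x 0) ^ 2 ≤ (max y 0) ^ 2 :=
    pow_le_pow_left₀ (le_max_right _ _) (max_le_max_right 0 hxy) 2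
  have u : up K T x ≤ up K T y := by
    unfold up
    rw [kx, ky]
    exact Real.rpow_le_rpow (by positivity) (by linarith) (by norm_num)
  have l : lo K T x ≤ lo K T y := by
    have h0 := mm_le_sq (K := K) hT x
    rw [kx] at h0
    unfold lo
    rw [kx, ky]
    exact Real.rpow_le_rpow (by linarith) (by linarith) (by norm_num)
  have e1 := gg_mul hK hT x
  have e2 := gg_mul hK hT y
  rw [kx] at e1
  rw [ky] at e2
  have ux := up_nonneg (T := T) hK x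
  have lx := lo_nonneg (K := K) hT x
  have gx := gg_nonneg hK hT x
  have gy := gg_nonneg hK hT y
  set a := up K T x
  set b := lo K T x
  set a' := up K T y
  set b' := lo K T y
  have hD : a ^ 2 + a * b + b ^ 2 ≤ a' ^ 2 + a' * b' + b' ^ 2 := by
    have := mul_le_mul u l lx (ux.trans u)
    have := pow_le_pow_left₀ ux u 2
    have := pow_le_pow_left₀ lx l 2
    linarith
  rcases hK.eq_or_lt with h0 | h0
  · -- K = 0
    have h1 := gg_cube_le hK hT y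
    rw [ky] at h1
    have h2 : gg K T y = 0 := by
      have h3 : gg K T y ^ 3 = 0 := le_antisymm (by linarith) (pow_nonneg gy 3)
      exact (pow_eq_zero_iff (by norm_num)).1 h3
    rw [h2]
    exact gx
  · by_contra hcon
    push Not at hcon
    have hp : 0 < a' ^ 2 + a' * b' + b' ^ 2 := by
      by_contra h3
      push Not at h3
      have : gg K T y * (a' ^ 2 + a' * b' + b' ^ 2) ≤ 0 := mul_nonpos_of_nonneg_of_nonpos gy h3
      linarith
    have h4 : gg K T x * (a ^ 2 + a * b + b ^ 2) ≤ gg K T x * (a' ^ 2 + a' * b' + b' ^ 2) :=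
      mul_le_mul_of_nonneg_left hD gx
    have h5 : gg K T x * (a' ^ 2 + a' * b' + b' ^ 2) < gg K T y * (a' ^ 2 + a' * b' + b' ^ 2) :=
      mul_lt_mul_of_pos_right hcon hp
    linarith

/-- the lower bound for `K = 1`, `y ≥ T` -/
theorem gg_low (hT : 1 ≤ T) {y : ℝ} (hy : T ≤ y) : 2 / 5 * y ^ (-(4 / 3) : ℝ) ≤ gg 1 T y := by
  have hy1 : 1 ≤ y := hT.trans hy
  have hy0 : 0 < y := by linarith
  have hT0 : 0 < T := by linarith
  have h5 : (max y 0) = y := max_eq_left hy0.le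
  have hm : mm 1 T y = 1 := by
    refine min_eq_left ?_
    rw [h5, le_div_iff₀ (by positivity), one_mul]
    exact pow_le_pow_left₀ hT0.le hy 2
  have e1 := gg_mul (K := 1) zero_le_one hT y
  rw [hm] at e1
  have hu : up 1 T y ≤ (2 * y ^ 2) ^ (1 / 3 : ℝ) := by
    unfold up
    rw [h5, hm]
    exact Real.rpow_le_rpow (by positivity) (by nlinarith) (by norm_num)
  have l0 := lo_nonneg (K := 1) hT y
  have lu := lo_le_up (K := 1) zero_le_one hT y
  have u0 := up_nonneg (K := 1) (T := T) zero_le_one y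
  have g0 := gg_nonneg (K := 1) zero_le_one hT y
  have e2 : (2 * y ^ 2) ^ (1 / 3 : ℝ) = (2 : ℝ) ^ (1 / 3 : ℝ) * y ^ (2 / 3 : ℝ) := by
    rw [Real.mul_rpow (by norm_num) (by positivity), ← Real.rpow_natCast y, ← Real.rpow_mul hy0.le]
    norm_num
  have c1 : ((2 : ℝ) ^ (1 / 3 : ℝ)) ^ 2 ≤ 5 / 3 := by
    have h3 : (((2 : ℝ) ^ (1 / 3 : ℝ)) ^ 2) ^ 3 = 4 := by
      rw [← pow_mul, ← Real.rpow_natCast, ← Real.rpow_mul (by norm_num)]
      norm_num
    refine le_of_pow_le_pow_left₀ (by norm_num : 3 ≠ 0) (by norm_num) ?_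
    rw [h3]
    norm_num
  have h7 : (0 : ℝ) < y ^ (2 / 3 : ℝ) := Real.rpow_pos_of_pos hy0 _
  have e3 : y ^ (4 / 3 : ℝ) = (y ^ (2 / 3 : ℝ)) ^ 2 := by
    rw [← Real.rpow_natCast, ← Real.rpow_mul hy0.le]
    norm_num
  have hD : up 1 T y ^ 2 + up 1 T y * lo 1 T y + lo 1 T y ^ 2 ≤ 5 * y ^ (4 / 3 : ℝ) := by
    have h8 : up 1 T y ^ 2 ≤ 5 / 3 * y ^ (4 / 3 : ℝ) := by
      calc up 1 T y ^ 2 ≤ ((2 : ℝ) ^ (1 / 3 : ℝ) * y ^ (2 / 3 : ℝ)) ^ 2 := by
            rw [← e2]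
            exact pow_le_pow_left₀ u0 hu 2
        _ = ((2 : ℝ) ^ (1 / 3 : ℝ)) ^ 2 * y ^ (4 / 3 : ℝ) := by rw [mul_pow, e3]
        _ ≤ _ := mul_le_mul_of_nonneg_right c1 (by positivity)
    have h9 : up 1 T y * lo 1 T y ≤ up 1 T y ^ 2 := by nlinarith
    have h10 : lo 1 T y ^ 2 ≤ up 1 T y ^ 2 := pow_le_pow_left₀ l0 lu 2
    linarith
  have h9 : (0 : ℝ) < y ^ (4 / 3 : ℝ) := Real.rpow_pos_of_pos hy0 _
  rw [Real.rpow_neg hy0.le, ← div_eq_mul_inv, div_le_iff₀ h9]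
  have h10 := mul_le_mul_of_nonneg_left hD g0
  linarith

/-- scaling -/
theorem gg_scale (hK : 0 < K) (hT : 1 ≤ T) (y : ℝ) :
    gg K T y = K ^ (1 / 3 : ℝ) * gg 1 T (y / √K) := by
  have hs : 0 < √K := Real.sqrt_pos.2 hK
  have h1 : max (y / √K) 0 = max y 0 / √K := by
    rcases le_total y 0 with h | h
    · rw [max_eq_right h, max_eq_right (div_nonpos_of_nonpos_of_nonneg h hs.le), zero_div]
    · rw [max_eq_left h, max_eq_left (by positivity)]
  have h2 : (max (y / √K) 0) ^ 2 = (max y 0) ^ 2 / K := by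
    rw [h1, div_pow, Real.sq_sqrt hK.le]
  have h3 : mm K T y = K * mm 1 T (y / √K) := by
    unfold mm
    rw [h2, mul_min_of_nonneg _ _ hK.le, mul_one]
    congr 1
    field_simp
  have h4 : (max y 0) ^ 2 = K * (max (y / √K) 0) ^ 2 := by
    rw [h2]
    field_simp
  unfold gg up lo
  rw [h3, h4, ← mul_add, ← mul_sub,
    Real.mul_rpow hK.le (add_nonneg (sq_nonneg _) (mm_nonneg zero_le_one _)),
    Real.mul_rpow hK.le (sub_nonneg.2 (mm_le_sq hT _))]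
  ring

end

end Pool.Agent.Work.MP_f2148a_nt.Law
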