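import Mathlib
import Pool.Agent.Work.MP_f2148a_nt.Law.G

/-!
# Law/Vol: the area of the region and the integral of `gg`
-/

set_option autoImplicit false

namespace Pool.Agent.Work.MP_f2148a_nt.Law

open MeasureTheory

/-- the number `Φ T` -/
noncomputable def Phi (T : ℝ) : ℝ :=
  (volume {p : ℝ × ℝ | |p.2 ^ 2 - p.1 ^ 3| ≤ 1 ∧
    T * |p.2 ^ 2 - p.1 ^ 3| ^ (1 / 2 : ℝ) < |p.2|}).toReal / 2

section

variable {K T : ℝ}

private theorem root_lt {a y : ℝ} (hT : 1 ≤ T) (ha : 0 ≤ a) (hy : 0 ≤ y) :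
    T * a ^ (1 / 2 : ℝ) < y ↔ a < y ^ 2 / T ^ 2 := by
  have hT0 : 0 < T := by linarith
  rw [← Real.sqrt_eq_rpow, lt_div_iff₀ (by positivity)]
  constructor
  · intro h
    have h1 : (T * √a) ^ 2 < y ^ 2 := pow_lt_pow_left₀ h (by positivity) (by norm_num)
    rw [mul_pow, Real.sq_sqrt ha] at h1
    linarith
  · intro h
    refine lt_of_pow_lt_pow_left₀ 2 hy ?_
    rw [mul_pow, Real.sq_sqrt ha]
    linarith

theorem mem_of_Ioo (hK : 0 ≤ K) (hT : 1 ≤ T) {x y : ℝ} (hy : 0 < y)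
    (h : x ∈ Set.Ioo (lo K T y) (up K T y)) :
    |y ^ 2 - x ^ 3| ≤ K ∧ T * |y ^ 2 - x ^ 3| ^ (1 / 2 : ℝ) < y := by
  have h1 := up_cube (T := T) hK y
  have h2 := lo_cube (K := K) hT y
  have e : max y 0 = y := max_eq_left hy.le
  rw [e] at h1 h2
  have hodd : Odd 3 := by decide
  have h3 : x ^ 3 < up K T y ^ 3 := hodd.strictMono_pow h.2
  have h4 : lo K T y ^ 3 < x ^ 3 := hodd.strictMono_pow h.1
  have h5 : |y ^ 2 - x ^ 3| < mm K T y := by
    rw [abs_lt]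
    constructor <;> linarith
  refine ⟨h5.le.trans (min_le_left _ _), ?_⟩
  rw [root_lt hT (abs_nonneg _) hy.le]
  refine h5.trans_le ?_
  have := min_le_right K ((max y 0) ^ 2 / T ^ 2)
  rw [e] at this
  unfold mm
  rw [e]
  exact this

theorem Icc_of_mem (hK : 0 ≤ K) (hT : 1 ≤ T) {x y : ℝ} (hy : 0 < y)
    (h : |y ^ 2 - x ^ 3| ≤ K ∧ T * |y ^ 2 - x ^ 3| ^ (1 / 2 : ℝ) < y) :
    x ∈ Set.Icc (lo K T y) (up K T y) := by
  have h1 := up_cube (T := T) hK y
  have h2 := lo_cube (K := K) hT y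
  have e : max y 0 = y := max_eq_left hy.le
  rw [e] at h1 h2
  have hodd : Odd 3 := by decide
  have h5 : |y ^ 2 - x ^ 3| ≤ mm K T y := by
    unfold mm
    rw [e]
    exact le_min h.1 ((root_lt hT (abs_nonneg _) hy.le).1 h.2).le
  rw [abs_le] at h5
  constructor
  · refine hodd.strictMono_pow.le_iff_le.1 ?_
    show lo K T y ^ 3 ≤ x ^ 3
    linarith
  · refine hodd.strictMono_pow.le_iff_le.1 ?_
    show x ^ 3 ≤ up K T y ^ 3
    linarith

private theorem vol_sec (hT : 1 ≤ T) (y : ℝ) :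
    volume {x : ℝ | |y ^ 2 - x ^ 3| ≤ 1 ∧ T * |y ^ 2 - x ^ 3| ^ (1 / 2 : ℝ) < |y|} =
      ENNReal.ofReal (gg 1 T |y|) := by
  have hT0 : 0 < T := by linarith
  rcases eq_or_ne y 0 with rfl | hy
  · have h1 : {x : ℝ | |(0 : ℝ) ^ 2 - x ^ 3| ≤ 1 ∧
        T * |(0 : ℝ) ^ 2 - x ^ 3| ^ (1 / 2 : ℝ) < |(0 : ℝ)|} = ∅ := by
      ext x
      simp only [Set.mem_ofPred_eq, Set.mem_empty_iff_false, iff_false, not_and, not_lt, abs_zero]
      intro _
      positivity
    rw [h1, measure_empty, abs_zero, gg_zero zero_le_one le_rfl, ENNReal.ofReal_zero]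
  · have hy0 : 0 < |y| := abs_pos.2 hy
    have e : ∀ x : ℝ, |y ^ 2 - x ^ 3| = |(|y|) ^ 2 - x ^ 3| := by
      intro x
      rw [sq_abs]
    refine le_antisymm ?_ ?_
    · calc _ ≤ volume (Set.Icc (lo 1 T |y|) (up 1 T |y|)) := by
            refine measure_mono fun x hx => ?_
            refine Icc_of_mem zero_le_one hT hy0 ?_
            have hx' : |y ^ 2 - x ^ 3| ≤ 1 ∧ T * |y ^ 2 - x ^ 3| ^ (1 / 2 : ℝ) < |y| := hx
            rw [← e]
            exact hx'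
        _ = _ := by rw [Real.volume_Icc]; rfl
    · calc _ = volume (Set.Ioo (lo 1 T |y|) (up 1 T |y|)) := by rw [Real.volume_Ioo]; rfl
        _ ≤ _ := by
            refine measure_mono fun x hx => ?_
            have := mem_of_Ioo zero_le_one hT hy0 hx
            rw [← e] at this
            exact this

/-- integrability -/
theorem gg_integrable (hK : 0 ≤ K) (hT : 1 ≤ T) : Integrable (gg K T) := by
  have h1 : IntegrableOn (gg K T) (Set.Iic 0) := by
    refine (integrableOn_zero (μ := volume) (s := Set.Iic (0 : ℝ))).congr_fun ?_ measurableSet_Iic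
    intro x hx
    exact (gg_zero hK hx).symm
  have h2 : IntegrableOn (gg K T) (Set.Icc 0 1) := gg_continuous.integrableOn_Icc
  have h3 : IntegrableOn (gg K T) (Set.Ioi 1) := by
    refine Integrable.mono' (g := fun x => 2 * K * x ^ (-(4 / 3) : ℝ)) ?_
      gg_continuous.aestronglyMeasurable ?_
    · exact (integrableOn_Ioi_rpow_of_lt (by norm_num) (by norm_num)).const_mul _
    · filter_upwards [ae_restrict_mem measurableSet_Ioi] with x hx
      have hx : 1 < x := hx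
      rw [Real.norm_eq_abs, abs_of_nonneg (gg_nonneg hK hT x)]
      exact gg_decay hK hT (by linarith)
  rw [← integrableOn_univ]
  have h4 : (Set.univ : Set ℝ) = Set.Iic 0 ∪ (Set.Icc 0 1 ∪ Set.Ioi 1) := by
    ext x
    simp only [Set.mem_univ, Set.mem_union, Set.mem_Iic, Set.mem_Icc, Set.mem_Ioi, true_iff]
    by_cases h5 : x ≤ 0
    · exact Or.inl h5
    · by_cases h6 : x ≤ 1
      · exact Or.inr (Or.inl ⟨(not_le.mp h5).le, h6⟩)
      · exact Or.inr (Or.inr (not_le.mp h6))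
  rw [h4]
  exact h1.union (h2.union h3)

/-- the integral over the line is the integral over the half line -/
theorem gg_Ioi (hK : 0 ≤ K) : ∫ y in Set.Ioi 0, gg K T y = ∫ y, gg K T y := by
  refine setIntegral_eq_integral_of_forall_compl_eq_zero fun x hx => ?_
  exact gg_zero hK (not_lt.1 hx)

/-- `Φ T` is the integral of `gg 1 T` -/
theorem Phi_eq (hT : 1 ≤ T) : Phi T = ∫ y, gg 1 T y := by
  have hm : MeasurableSet {p : ℝ × ℝ | |p.2 ^ 2 - p.1 ^ 3| ≤ 1 ∧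
      T * |p.2 ^ 2 - p.1 ^ 3| ^ (1 / 2 : ℝ) < |p.2|} := by
    have hc1 : Continuous fun p : ℝ × ℝ => |p.2 ^ 2 - p.1 ^ 3| := by fun_prop
    have hc2 : Continuous fun p : ℝ × ℝ => T * |p.2 ^ 2 - p.1 ^ 3| ^ (1 / 2 : ℝ) :=
      continuous_const.mul (hc1.rpow_const fun _ => Or.inr (by norm_num))
    have hc3 : Continuous fun p : ℝ × ℝ => |p.2| := by fun_prop
    exact (isClosed_le hc1 continuous_const).measurableSet.inter
      (isOpen_lt hc2 hc3).measurableSet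
  have h1 : volume {p : ℝ × ℝ | |p.2 ^ 2 - p.1 ^ 3| ≤ 1 ∧
      T * |p.2 ^ 2 - p.1 ^ 3| ^ (1 / 2 : ℝ) < |p.2|} =
      ∫⁻ y, ENNReal.ofReal (gg 1 T |y|) := by
    rw [Measure.volume_eq_prod, Measure.prod_apply_symm hm]
    refine lintegral_congr fun y => ?_
    rw [← vol_sec hT]
    rfl
  have h2 : ∫ y, gg 1 T |y| = 2 * ∫ y in Set.Ioi 0, gg 1 T y := integral_comp_abs
  have h3 : ∫ y, gg 1 T |y| = (∫⁻ y, ENNReal.ofReal (gg 1 T |y|)).toReal := by
    refine integral_eq_lintegral_of_nonneg_ae (Filter.Eventually.of_forall fun y => ?_)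
      (gg_continuous.comp continuous_abs).aestronglyMeasurable
    exact gg_nonneg zero_le_one hT _
  unfold Phi
  rw [h1, ← h3, h2, gg_Ioi zero_le_one]
  ring

/-- scaling of the integral -/
theorem gg_integral (hK : 0 < K) (hT : 1 ≤ T) : ∫ y, gg K T y = Phi T * K ^ (5 / 6 : ℝ) := by
  have h1 : ∫ y, gg K T y = ∫ y, K ^ (1 / 3 : ℝ) * gg 1 T ((√K)⁻¹ * y) := by
    refine integral_congr_ae (Filter.Eventually.of_forall fun y => ?_)
    show gg K T y = K ^ (1 / 3 : ℝ) * gg 1 T ((√K)⁻¹ * y)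
    rw [gg_scale hK hT, inv_mul_eq_div]
  rw [h1, integral_const_mul, Measure.integral_comp_mul_left (gg 1 T) ((√K)⁻¹), inv_inv,
    abs_of_nonneg (Real.sqrt_nonneg K), smul_eq_mul, ← Phi_eq hT, Real.sqrt_eq_rpow, ← mul_assoc,
    ← Real.rpow_add hK]
  norm_num
  ring

/-- the tail -/
theorem gg_tail (hK : 0 ≤ K) (hT : 1 ≤ T) {Y : ℝ} (hY : 0 < Y) :
    ∫ y in Set.Ioi Y, gg K T y ≤ 6 * K * Y ^ (-(1 / 3) : ℝ) := by
  have h1 : ∫ x in Set.Ioi Y, gg K T x ≤ ∫ x in Set.Ioi Y, 2 * K * x ^ (-(4 / 3) : ℝ) := by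
    refine setIntegral_mono_on (gg_integrable hK hT).integrableOn
      ((integrableOn_Ioi_rpow_of_lt (by norm_num) hY).const_mul _) measurableSet_Ioi ?_
    intro x hx
    have hx : Y < x := hx
    exact gg_decay hK hT (hY.trans hx)
  rw [integral_const_mul, integral_Ioi_rpow_of_lt (by norm_num) hY] at h1
  have h2 : (-(4 / 3) : ℝ) + 1 = -(1 / 3) := by norm_num
  rw [h2] at h1
  calc ∫ x in Set.Ioi Y, gg K T x ≤ _ := h1
    _ = 6 * K * Y ^ (-(1 / 3) : ℝ) := by ring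

theorem Phi_nonneg (T : ℝ) : 0 ≤ Phi T := by
  unfold Phi
  positivity

theorem Phi_le (hT : 1 ≤ T) : Phi T ≤ 8 * T ^ (-(1 / 3) : ℝ) := by
  have hT0 : 0 < T := by linarith
  rw [Phi_eq hT, ← gg_Ioi zero_le_one]
  have hs : Set.Ioi (0 : ℝ) = Set.Ioc 0 T ∪ Set.Ioi T := (Set.Ioc_union_Ioi_eq_Ioi hT0.le).symm
  have hint := gg_integrable (K := 1) zero_le_one hT
  rw [hs, setIntegral_union (Set.Ioc_disjoint_Ioi le_rfl) measurableSet_Ioi hint.integrableOn
    hint.integrableOn]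
  have h1 := gg_tail (K := 1) zero_le_one hT hT0
  have hii : IntegrableOn (fun y : ℝ => 2 / T ^ 2 * y ^ (2 / 3 : ℝ)) (Set.Ioc 0 T) := by
    refine Integrable.const_mul ?_ _
    have := intervalIntegral.intervalIntegrable_rpow' (a := 0) (b := T)
      (show (-1 : ℝ) < 2 / 3 by norm_num)
    rwa [intervalIntegrable_iff_integrableOn_Ioc_of_le hT0.le] at this
  have h2 : ∫ y in Set.Ioc 0 T, gg 1 T y ≤ ∫ y in Set.Ioc 0 T, 2 / T ^ 2 * y ^ (2 / 3 : ℝ) := by
    refine setIntegral_mono_on hint.integrableOn hii measurableSet_Ioc fun y hy => ?_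
    have hy0 : 0 < y := hy.1
    refine (gg_mm zero_le_one hT hy0).trans ?_
    have h3 : mm 1 T y ≤ y ^ 2 / T ^ 2 := by
      have := min_le_right (1 : ℝ) ((max y 0) ^ 2 / T ^ 2)
      rw [max_eq_left hy0.le] at this
      unfold mm
      rw [max_eq_left hy0.le]
      exact this
    have h4 : 0 ≤ y ^ (-(4 / 3) : ℝ) := Real.rpow_nonneg hy0.le _
    calc 2 * mm 1 T y * y ^ (-(4 / 3) : ℝ) ≤ 2 * (y ^ 2 / T ^ 2) * y ^ (-(4 / 3) : ℝ) :=
          mul_le_mul_of_nonneg_right (by linarith) h4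
      _ = 2 / T ^ 2 * (y ^ 2 * y ^ (-(4 / 3) : ℝ)) := by ring
      _ = 2 / T ^ 2 * y ^ (2 / 3 : ℝ) := by
          rw [← Real.rpow_natCast y 2, ← Real.rpow_add hy0]
          norm_num
  have h3 : ∫ y in Set.Ioc 0 T, 2 / T ^ 2 * y ^ (2 / 3 : ℝ) = 6 / 5 * T ^ (-(1 / 3) : ℝ) := by
    rw [integral_const_mul, ← intervalIntegral.integral_of_le hT0.le,
      integral_rpow (Or.inl (by norm_num))]
    have e1 : (0 : ℝ) ^ ((2 / 3 : ℝ) + 1) = 0 := Real.zero_rpow (by norm_num)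
    have e2 : T ^ ((2 / 3 : ℝ) + 1) = T ^ 2 * T ^ (-(1 / 3) : ℝ) := by
      rw [← Real.rpow_natCast T 2, ← Real.rpow_add hT0]
      norm_num
    rw [e1, e2, sub_zero]
    field_simp
    norm_num
  have h4 : 0 ≤ T ^ (-(1 / 3) : ℝ) := Real.rpow_nonneg hT0.le _
  linarith

theorem Phi_ge (hT : 1 ≤ T) : T ^ (-(1 / 3) : ℝ) ≤ Phi T := by
  have hT0 : 0 < T := by linarith
  rw [Phi_eq hT]
  have hint := gg_integrable (K := 1) zero_le_one hT
  have h1 : ∫ y in Set.Ioi T, gg 1 T y ≤ ∫ y, gg 1 T y :=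
    setIntegral_le_integral hint (Filter.Eventually.of_forall fun y => gg_nonneg zero_le_one hT y)
  have h2 : ∫ y in Set.Ioi T, 2 / 5 * y ^ (-(4 / 3) : ℝ) ≤ ∫ y in Set.Ioi T, gg 1 T y := by
    refine setIntegral_mono_on ((integrableOn_Ioi_rpow_of_lt (by norm_num) hT0).const_mul _)
      hint.integrableOn measurableSet_Ioi ?_
    intro y hy
    have hy : T < y := hy
    exact gg_low hT hy.le
  rw [integral_const_mul, integral_Ioi_rpow_of_lt (by norm_num) hT0] at h2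
  have h3 : (-(4 / 3) : ℝ) + 1 = -(1 / 3) := by norm_num
  rw [h3] at h2
  have h4 : 0 ≤ T ^ (-(1 / 3) : ℝ) := Real.rpow_nonneg hT0.le _
  have h5 : 2 / 5 * (-T ^ (-(1 / 3) : ℝ) / (-(1 / 3))) = 6 / 5 * T ^ (-(1 / 3) : ℝ) := by ring
  rw [h5] at h2
  linarith

end

end Pool.Agent.Work.MP_f2148a_nt.Law
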