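import Mathlib
import Pool.Agent.Work.MP_f2148a_nt.Law.Vol
import Pool.Agent.Work.MP_f2148a_nt.As.Two

/-!
# Law/Cnt: the number of the pairs

`PT K T`: the pairs of `pr K` with `T |y ^ 2 - x ^ 3| ^ (1 / 2) < y`; their number is
`Φ T K ^ (5 / 6) + O (K ^ θ)` uniformly in `T ≥ 1`.
-/

set_option autoImplicit false

namespace Pool.Agent.Work.MP_f2148a_nt.Law

open MeasureTheory Pool.Agent.Work.MP_f2148a_nt

open Classical in
/-- the integers of the section -/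
noncomputable def sec (K T : ℝ) (y : ℤ) : Finset ℤ :=
  (Finset.Icc ⌈lo K T (y : ℝ)⌉ ⌊up K T (y : ℝ)⌋).filter fun x =>
    |(y : ℝ) ^ 2 - (x : ℝ) ^ 3| ≤ K ∧ T * |(y : ℝ) ^ 2 - (x : ℝ) ^ 3| ^ (1 / 2 : ℝ) < y

section

variable {K T : ℝ}

theorem mem_sec (hK : 0 ≤ K) (hT : 1 ≤ T) {y : ℤ} (hy : 0 < y) (x : ℤ) : x ∈ sec K T y ↔
    |(y : ℝ) ^ 2 - (x : ℝ) ^ 3| ≤ K ∧ T * |(y : ℝ) ^ 2 - (x : ℝ) ^ 3| ^ (1 / 2 : ℝ) < y := by
  unfold sec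
  rw [Finset.mem_filter]
  refine ⟨fun h => h.2, fun h => ⟨?_, h⟩⟩
  have hy' : (0 : ℝ) < (y : ℝ) := by exact_mod_cast hy
  have h1 := Icc_of_mem hK hT hy' h
  rw [Finset.mem_Icc]
  exact ⟨Int.ceil_le.2 h1.1, Int.le_floor.2 h1.2⟩

theorem card_sec (hK : 0 ≤ K) (hT : 1 ≤ T) {y : ℤ} (hy : 0 < y) :
    |((sec K T y).card : ℝ) - gg K T y| ≤ 1 := by
  have hy' : (0 : ℝ) < (y : ℝ) := by exact_mod_cast hy
  have hlu := lo_le_up hK hT (y : ℝ)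
  have hgg : gg K T (y : ℝ) = up K T y - lo K T y := rfl
  rw [hgg]
  set l := lo K T (y : ℝ) with hl
  set u := up K T (y : ℝ) with hu
  have h1 : (sec K T y).card ≤ (Finset.Icc ⌈l⌉ ⌊u⌋).card := Finset.card_le_card (Finset.filter_subset _ _)
  have h2 : Finset.Icc (⌊l⌋ + 1) (⌈u⌉ - 1) ⊆ sec K T y := by
    intro x hx
    rw [Finset.mem_Icc] at hx
    rw [mem_sec hK hT hy]
    have hl1 : l < (x : ℝ) := Int.floor_lt.1 (by omega)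
    have hl2 : (x : ℝ) < u := Int.lt_ceil.1 (by omega)
    exact mem_of_Ioo hK hT hy' ⟨hl1, hl2⟩
  have h3 := Finset.card_le_card h2
  rw [Int.card_Icc] at h1 h3
  have f1 := Int.floor_le l
  have f2 := Int.lt_floor_add_one l
  have f3 := Int.le_ceil u
  have f4 := Int.ceil_lt_add_one u
  have f5 := Int.floor_le u
  have f6 := Int.le_ceil l
  have h1' : (((⌊u⌋ + 1 - ⌈l⌉).toNat : ℕ) : ℝ) ≤ u - l + 1 := by
    have e : (((⌊u⌋ + 1 - ⌈l⌉).toNat : ℕ) : ℝ) = max ((⌊u⌋ : ℝ) + 1 - ⌈l⌉) 0 := by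
      have : (((⌊u⌋ + 1 - ⌈l⌉).toNat : ℕ) : ℤ) = max (⌊u⌋ + 1 - ⌈l⌉) 0 := Int.toNat_eq_max _
      have h := congrArg (fun z : ℤ => (z : ℝ)) this
      push_cast at h
      exact h
    rw [e]
    exact max_le (by linarith) (by linarith)
  have h3' : u - l - 1 ≤ (((⌈u⌉ - 1 + 1 - (⌊l⌋ + 1)).toNat : ℕ) : ℝ) := by
    have : ((⌈u⌉ - 1 + 1 - (⌊l⌋ + 1) : ℤ) : ℝ) ≤ (((⌈u⌉ - 1 + 1 - (⌊l⌋ + 1)).toNat : ℕ) : ℝ) := by
      have := Int.self_le_toNat (⌈u⌉ - 1 + 1 - (⌊l⌋ + 1))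
      exact_mod_cast this
    push_cast at this
    push_cast
    linarith
  have h1'' : ((sec K T y).card : ℝ) ≤ (((⌊u⌋ + 1 - ⌈l⌉).toNat : ℕ) : ℝ) := by exact_mod_cast h1
  have h3'' : (((⌈u⌉ - 1 + 1 - (⌊l⌋ + 1)).toNat : ℕ) : ℝ) ≤ ((sec K T y).card : ℝ) := by
    exact_mod_cast h3
  rw [abs_le]
  constructor <;> linarith

end

/-- the pairs -/
def PT (K T : ℝ) : Set (ℤ × ℤ) := {t | t ∈ As.pr K ∧
  T * |(t.2 : ℝ) ^ 2 - (t.1 : ℝ) ^ 3| ^ (1 / 2 : ℝ) < (t.2 : ℝ)}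

theorem PT_pos {K T : ℝ} (hT : 1 ≤ T) {t : ℤ × ℤ} (ht : t ∈ PT K T) : 0 < t.2 := by
  have h1 : 0 ≤ T * |(t.2 : ℝ) ^ 2 - (t.1 : ℝ) ^ 3| ^ (1 / 2 : ℝ) := by positivity
  have h2 : (0 : ℝ) < (t.2 : ℝ) := lt_of_le_of_lt h1 ht.2
  exact_mod_cast h2

/-- the pairs with `x > X` -/
theorem tailX {θ : ℝ} (hA : As.Asy θ) : ∃ A : ℝ, 0 ≤ A ∧ ∀ K : ℝ, 1 ≤ K → ∀ X : ℕ,
    K ≤ (X : ℝ) ^ 3 →
    ({t : ℤ × ℤ | t ∈ As.pr K ∧ (X : ℝ) < (t.1 : ℝ)}.Finite ∧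
    ({t : ℤ × ℤ | t ∈ As.pr K ∧ (X : ℝ) < (t.1 : ℝ)}.ncard : ℝ) ≤
      A * K ^ θ + (12 * X + 6 * √K + 8 * K * (X : ℝ) ^ (-(1 / 2) : ℝ))) := by
  obtain ⟨A1, hA1⟩ := hA
  refine ⟨|A1|, abs_nonneg _, fun K hK X hX => ?_⟩
  have hK0 : 0 < K := lt_of_lt_of_le one_pos hK
  obtain ⟨hfP, hP⟩ := hA1 K hK
  obtain ⟨hfQ, hQ⟩ := As.small hK X hX
  have hfR : {t : ℤ × ℤ | t ∈ As.pr K ∧ (X : ℝ) < (t.1 : ℝ)}.Finite := hfP.subset fun t ht => ht.1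
  refine ⟨hfR, ?_⟩
  have h1 : Disjoint {t : ℤ × ℤ | t ∈ As.pr K ∧ (X : ℝ) < (t.1 : ℝ)}
      {t : ℤ × ℤ | t ∈ As.pr K ∧ (t.1 : ℝ) ≤ X} := by
    rw [Set.disjoint_left]
    intro t ht hu
    exact absurd hu.2 (not_le.2 ht.2)
  have h2 : {t : ℤ × ℤ | t ∈ As.pr K ∧ (X : ℝ) < (t.1 : ℝ)} ∪
      {t : ℤ × ℤ | t ∈ As.pr K ∧ (t.1 : ℝ) ≤ X} ⊆ As.pr K :=
    Set.union_subset (fun t ht => ht.1) fun t ht => ht.1
  have h3 := Set.ncard_le_ncard h2 hfP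
  rw [Set.ncard_union_eq h1 hfR hfQ] at h3
  have h4 : ({t : ℤ × ℤ | t ∈ As.pr K ∧ (X : ℝ) < (t.1 : ℝ)}.ncard : ℝ) +
      ({t : ℤ × ℤ | t ∈ As.pr K ∧ (t.1 : ℝ) ≤ X}.ncard : ℝ) ≤ ((As.pr K).ncard : ℝ) := by
    exact_mod_cast h3
  have h5 := (abs_le.1 hP).2
  have h6 := (abs_le.1 hQ).1
  have h7 : A1 * K ^ θ ≤ |A1| * K ^ θ :=
    mul_le_mul_of_nonneg_right (le_abs_self A1) (Real.rpow_nonneg hK0.le θ)
  linarith

/-- the pairs with `y > 3 K ^ (3 / 5)` -/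
theorem tailY {θ : ℝ} (hA : As.Asy θ) (hθ : 4 / 5 < θ) : ∃ A : ℝ, 0 ≤ A ∧ ∀ K : ℝ, 1 ≤ K →
    ∀ S : Finset (ℤ × ℤ), (∀ t ∈ S, t ∈ As.pr K ∧ 3 * K ^ (3 / 5 : ℝ) < (t.2 : ℝ)) →
    (S.card : ℝ) ≤ A * K ^ θ := by
  classical
  obtain ⟨A, hA0, H⟩ := tailX hA
  refine ⟨A + 38, by positivity, fun K hK S hS => ?_⟩
  have hK0 : 0 < K := by linarith
  have hr : (1 : ℝ) ≤ K ^ (2 / 5 : ℝ) := Real.one_le_rpow hK (by norm_num)
  set r : ℝ := K ^ (2 / 5 : ℝ) with hrdef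
  set X : ℕ := ⌈r⌉₊ with hX
  have hXge : r ≤ (X : ℝ) := Nat.le_ceil r
  have hXle : (X : ℝ) ≤ 2 * r := by
    have := Nat.ceil_lt_add_one (show 0 ≤ r by linarith)
    rw [← hX] at this
    linarith
  have hr3 : r ^ 3 = K ^ (6 / 5 : ℝ) := by
    rw [hrdef, ← Real.rpow_natCast, ← Real.rpow_mul hK0.le]
    norm_num
  have hKr : K ≤ K ^ (6 / 5 : ℝ) := by
    nth_rewrite 1 [← Real.rpow_one K]
    exact Real.rpow_le_rpow_of_exponent_le hK (by norm_num)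
  have hX3 : K ≤ (X : ℝ) ^ 3 := by
    have := pow_le_pow_left₀ (by linarith) hXge 3
    linarith
  obtain ⟨hf, hc⟩ := H K hK X hX3
  have hsub : (S : Set (ℤ × ℤ)) ⊆ {t : ℤ × ℤ | t ∈ As.pr K ∧ (X : ℝ) < (t.1 : ℝ)} := by
    intro t ht
    obtain ⟨h1, h2⟩ := hS t ht
    refine ⟨h1, ?_⟩
    have h3 := (abs_le.1 h1.2).2
    have h4 : (3 * K ^ (3 / 5 : ℝ)) ^ 2 < (t.2 : ℝ) ^ 2 :=
      pow_lt_pow_left₀ h2 (by positivity) (by norm_num)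
    have h5 : (3 * K ^ (3 / 5 : ℝ)) ^ 2 = 9 * K ^ (6 / 5 : ℝ) := by
      rw [mul_pow, ← Real.rpow_natCast (K ^ (3 / 5 : ℝ)), ← Real.rpow_mul hK0.le]
      norm_num
    rw [h5] at h4
    have h6 : (X : ℝ) ^ 3 ≤ 8 * K ^ (6 / 5 : ℝ) := by
      have := pow_le_pow_left₀ (Nat.cast_nonneg X) hXle 3
      rw [mul_pow, hr3] at this
      linarith
    have h7 : (X : ℝ) ^ 3 < (t.1 : ℝ) ^ 3 := by linarith
    exact (Odd.strictMono_pow (by decide : Odd 3)).lt_iff_lt.1 h7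
  have h1 := Set.ncard_le_ncard hsub hf
  rw [Set.ncard_coe_finset] at h1
  have h1' : (S.card : ℝ) ≤ ({t : ℤ × ℤ | t ∈ As.pr K ∧ (X : ℝ) < (t.1 : ℝ)}.ncard : ℝ) := by
    exact_mod_cast h1
  have e1 : r ≤ K ^ θ := Real.rpow_le_rpow_of_exponent_le hK (by linarith)
  have e2 : √K ≤ K ^ θ := by
    rw [Real.sqrt_eq_rpow]
    exact Real.rpow_le_rpow_of_exponent_le hK (by linarith)
  have e3 : K * (X : ℝ) ^ (-(1 / 2) : ℝ) ≤ K ^ θ := by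
    have h2 : (X : ℝ) ^ (-(1 / 2) : ℝ) ≤ r ^ (-(1 / 2) : ℝ) :=
      Real.rpow_le_rpow_of_nonpos (by linarith) hXge (by norm_num)
    have h3 : r ^ (-(1 / 2) : ℝ) = K ^ (-(1 / 5) : ℝ) := by
      rw [hrdef, ← Real.rpow_mul hK0.le]
      norm_num
    rw [h3] at h2
    refine (mul_le_mul_of_nonneg_left h2 hK0.le).trans ?_
    have h4 : K * K ^ (-(1 / 5) : ℝ) = K ^ (4 / 5 : ℝ) := by
      nth_rewrite 1 [← Real.rpow_one K]
      rw [← Real.rpow_add hK0]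
      norm_num
    rw [h4]
    exact Real.rpow_le_rpow_of_exponent_le hK hθ.le
  have e4 : (A + 38) * K ^ θ = A * K ^ θ + 38 * K ^ θ := by ring
  rw [e4]
  linarith

open Classical in
/-- the number of the pairs -/
theorem card_PT {θ : ℝ} (hA : As.Asy θ) (hθ : 4 / 5 < θ) : ∃ A : ℝ, 0 ≤ A ∧ ∀ K : ℝ, 1 ≤ K →
    ∀ T : ℝ, 1 ≤ T → (PT K T).Finite ∧
      |((PT K T).ncard : ℝ) - Phi T * K ^ (5 / 6 : ℝ)| ≤ A * K ^ θ := by
  obtain ⟨A, hA0, H⟩ := tailY hA hθ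
  obtain ⟨A1, hA1⟩ := hA
  refine ⟨A + 18, by positivity, fun K hK T hT => ?_⟩
  have hK0 : 0 < K := by linarith
  have hfin : (PT K T).Finite := (hA1 K hK).1.subset fun t ht => ht.1
  refine ⟨hfin, ?_⟩
  rw [Set.ncard_eq_toFinset_card _ hfin]
  set P : Finset (ℤ × ℤ) := hfin.toFinset with hP
  have hPm : ∀ t, t ∈ P ↔ t ∈ PT K T := fun t => Set.Finite.mem_toFinset _
  have hr : (1 : ℝ) ≤ K ^ (3 / 5 : ℝ) := Real.one_le_rpow hK (by norm_num)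
  set Y : ℤ := ⌈3 * K ^ (3 / 5 : ℝ)⌉ with hY
  have hYge : 3 * K ^ (3 / 5 : ℝ) ≤ (Y : ℝ) := Int.le_ceil _
  have hYle : (Y : ℝ) ≤ 4 * K ^ (3 / 5 : ℝ) := by
    have := Int.ceil_lt_add_one (3 * K ^ (3 / 5 : ℝ))
    rw [← hY] at this
    linarith
  have hY0 : (0 : ℝ) < (Y : ℝ) := by linarith
  have hY0' : 0 < Y := by exact_mod_cast hY0
  set G : Finset (ℤ × ℤ) := (Finset.Ioc 0 Y).biUnion fun y =>
    (sec K T y).image fun x => (x, y) with hG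
  have hGm : ∀ t : ℤ × ℤ, t ∈ G ↔ (0 < t.2 ∧ t.2 ≤ Y) ∧ t.1 ∈ sec K T t.2 := by
    rintro ⟨x, y⟩
    rw [hG, Finset.mem_biUnion]
    constructor
    · rintro ⟨y', h1, h2⟩
      obtain ⟨x', h3, h4⟩ := Finset.mem_image.1 h2
      obtain ⟨rfl, rfl⟩ := Prod.mk.inj h4
      exact ⟨Finset.mem_Ioc.1 h1, h3⟩
    · rintro ⟨h1, h2⟩
      exact ⟨y, Finset.mem_Ioc.2 h1, Finset.mem_image.2 ⟨x, h2, rfl⟩⟩
  have hGc : G.card = ∑ y ∈ Finset.Ioc 0 Y, (sec K T y).card := by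
    rw [hG, Finset.card_biUnion]
    · refine Finset.sum_congr rfl fun y _ => ?_
      exact Finset.card_image_of_injective _ fun x x' h => (Prod.mk.inj h).1
    · intro n _ n' _ hne
      refine Finset.disjoint_left.2 fun t ht ht' => ?_
      obtain ⟨y, -, rfl⟩ := Finset.mem_image.1 ht
      obtain ⟨y', -, h⟩ := Finset.mem_image.1 ht'
      exact hne (Prod.mk.inj h).2.symm
  have hcard0 : ((Finset.Ioc 0 Y).card : ℝ) = Y := by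
    rw [Int.card_Ioc, sub_zero]
    have : ((Y.toNat : ℕ) : ℤ) = Y := Int.toNat_of_nonneg hY0'.le
    exact_mod_cast this
  -- the sum
  have hsum : |(G.card : ℝ) - ∑ y ∈ Finset.Ioc 0 Y, gg K T (y : ℝ)| ≤ Y := by
    rw [hGc]
    push_cast
    rw [← Finset.sum_sub_distrib]
    refine (Finset.abs_sum_le_sum_abs _ _).trans ?_
    calc _ ≤ ∑ y ∈ Finset.Ioc 0 Y, (1 : ℝ) :=
          Finset.sum_le_sum fun y hy => card_sec hK0.le hT (Finset.mem_Ioc.1 hy).1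
      _ = Y := by rw [Finset.sum_const, nsmul_eq_mul, mul_one, hcard0]
  -- the cusp
  have hcusp : ((G.filter fun t => t.2 ^ 2 = t.1 ^ 3).card : ℝ) ≤ Y := by
    rw [← hcard0]
    have : (G.filter fun t => t.2 ^ 2 = t.1 ^ 3).card ≤ (Finset.Ioc 0 Y).card := by
      refine Finset.card_le_card_of_injOn (fun t => t.2) ?_ ?_
      · intro t ht
        rw [Finset.mem_coe, Finset.mem_filter, hGm] at ht
        exact Finset.mem_coe.2 (Finset.mem_Ioc.2 ht.1.1)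
      · intro t ht t' ht' h
        rw [Finset.mem_coe, Finset.mem_filter] at ht ht'
        have h' : t.2 = t'.2 := h
        have h1 : t.1 ^ 3 = t'.1 ^ 3 := by rw [← ht.2, ← ht'.2, h']
        have h2 : t.1 = t'.1 := (Odd.strictMono_pow (by decide : Odd 3)).injective h1
        exact Prod.ext h2 h'
    exact_mod_cast this
  -- the two inclusions
  have hsub1 : P ⊆ G ∪ P.filter fun t => Y < t.2 := by
    intro t ht
    by_cases h : Y < t.2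
    · exact Finset.mem_union_right _ (Finset.mem_filter.2 ⟨ht, h⟩)
    · refine Finset.mem_union_left _ ?_
      have ht' := (hPm t).1 ht
      have h0 := PT_pos hT ht'
      rw [hGm]
      exact ⟨⟨h0, not_lt.1 h⟩, (mem_sec hK0.le hT h0 _).2 ⟨ht'.1.2, ht'.2⟩⟩
  have hsub2 : G ⊆ P ∪ G.filter fun t => t.2 ^ 2 = t.1 ^ 3 := by
    intro t ht
    by_cases h : t.2 ^ 2 = t.1 ^ 3
    · exact Finset.mem_union_right _ (Finset.mem_filter.2 ⟨ht, h⟩)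
    · refine Finset.mem_union_left _ ?_
      rw [hGm] at ht
      have h1 := (mem_sec hK0.le hT ht.1.1 _).1 ht.2
      rw [hPm]
      exact ⟨⟨h, h1.1⟩, h1.2⟩
  have htail : ((P.filter fun t => Y < t.2).card : ℝ) ≤ A * K ^ θ := by
    refine H K hK _ fun t ht => ?_
    rw [Finset.mem_filter, hPm] at ht
    refine ⟨ht.1.1, lt_of_le_of_lt hYge ?_⟩
    exact_mod_cast ht.2
  have c1 : (P.card : ℝ) ≤ G.card + (P.filter fun t => Y < t.2).card := by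
    have := (Finset.card_le_card hsub1).trans (Finset.card_union_le _ _)
    exact_mod_cast this
  have c2 : (G.card : ℝ) ≤ P.card + (G.filter fun t => t.2 ^ 2 = t.1 ^ 3).card := by
    have := (Finset.card_le_card hsub2).trans (Finset.card_union_le _ _)
    exact_mod_cast this
  -- the integral
  have hint := As.sum_int (f := gg K T) (c := T * √K) (M := 2 * K ^ (1 / 3 : ℝ))
    (fun x => gg_nonneg hK0.le hT x) (fun x => gg_le hK0.le hT x)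
    (fun x y hxy hy => gg_mono hK0.le hT x y hxy hy)
    (fun x y hx hxy => gg_anti hK0.le hT x y hx hxy) gg_continuous 0 Y hY0'.le
  have hi : ∫ y in ((0 : ℤ) : ℝ)..(Y : ℝ), gg K T y =
      Phi T * K ^ (5 / 6 : ℝ) - ∫ y in Set.Ioi (Y : ℝ), gg K T y := by
    rw [Int.cast_zero, intervalIntegral.integral_of_le hY0.le, ← gg_integral hK0 hT,
      ← gg_Ioi hK0.le]
    have hs : Set.Ioi (0 : ℝ) = Set.Ioc 0 (Y : ℝ) ∪ Set.Ioi (Y : ℝ) :=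
      (Set.Ioc_union_Ioi_eq_Ioi hY0.le).symm
    have hI := gg_integrable hK0.le hT
    rw [hs, setIntegral_union (Set.Ioc_disjoint_Ioi le_rfl) measurableSet_Ioi hI.integrableOn
      hI.integrableOn]
    ring
  rw [hi] at hint
  have ht1 := gg_tail hK0.le hT hY0
  have ht0 : 0 ≤ ∫ y in Set.Ioi (Y : ℝ), gg K T y :=
    setIntegral_nonneg measurableSet_Ioi fun y _ => gg_nonneg hK0.le hT y
  -- the sizes
  have s1 : K ^ (3 / 5 : ℝ) ≤ K ^ θ := Real.rpow_le_rpow_of_exponent_le hK (by linarith)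
  have s2 : K ^ (1 / 3 : ℝ) ≤ K ^ θ := Real.rpow_le_rpow_of_exponent_le hK (by linarith)
  have s3 : K * (Y : ℝ) ^ (-(1 / 3) : ℝ) ≤ K ^ θ := by
    have h2 : (Y : ℝ) ^ (-(1 / 3) : ℝ) ≤ (K ^ (3 / 5 : ℝ)) ^ (-(1 / 3) : ℝ) :=
      Real.rpow_le_rpow_of_nonpos (by linarith) (by linarith) (by norm_num)
    have h3 : (K ^ (3 / 5 : ℝ)) ^ (-(1 / 3) : ℝ) = K ^ (-(1 / 5) : ℝ) := by
      rw [← Real.rpow_mul hK0.le]
      norm_num
    rw [h3] at h2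
    refine (mul_le_mul_of_nonneg_left h2 hK0.le).trans ?_
    have h4 : K * K ^ (-(1 / 5) : ℝ) = K ^ (4 / 5 : ℝ) := by
      nth_rewrite 1 [← Real.rpow_one K]
      rw [← Real.rpow_add hK0]
      norm_num
    rw [h4]
    exact Real.rpow_le_rpow_of_exponent_le hK hθ.le
  have e4 : (A + 18) * K ^ θ = A * K ^ θ + 18 * K ^ θ := by ring
  have a1 := abs_le.1 hsum
  have a2 := abs_le.1 hint
  rw [abs_le, e4]
  constructor <;> linarith [a1.1, a1.2, a2.1, a2.2]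

end Pool.Agent.Work.MP_f2148a_nt.Law
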