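import Mathlib
import Pool.Agent.Work.MP_f2148a_nt.Law.Cnt
import Pool.Agent.Work.MP_f2148a_nt.As.HallT

/-!
# Law/Val: the law of the size of the solutions

`bigT T K` is the set of the values of the pairs of `PT K T`, and these values are distinct up to `O (K ^ θ)`.
-/

set_option autoImplicit false

namespace Pool.Agent.Work.MP_f2148a_nt.Law

open Pool.Agent.Work.MP_f2148a_nt

/-- distinct values -/
theorem distinct {θ : ℝ} (hA : As.Asy θ) (hθ : 4 / 5 < θ) : ∃ A : ℝ, 0 ≤ A ∧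
    ∀ K : ℝ, 1 ≤ K → ∀ G : Finset (ℤ × ℤ), (∀ t ∈ G, t ∈ As.pr K ∧ 0 ≤ t.2) →
    (G.card : ℝ) - A * K ^ θ ≤ ((G.image fun t => t.2 ^ 2 - t.1 ^ 3).card : ℝ) := by
  classical
  obtain ⟨A1, hA1⟩ := As.cnt hA hθ
  obtain ⟨A0, hA0⟩ := hA
  refine ⟨|A0| / 2 + |A1| + 2, by positivity, fun K hK G hG => ?_⟩
  obtain ⟨hfin, hasy⟩ := hA0 K hK
  obtain ⟨hsfin, hsasy⟩ := hA1 K hK
  set F : Finset (ℤ × ℤ) := hfin.toFinset with hFdef
  have hFm : ∀ t, t ∈ F ↔ t ∈ As.pr K := fun t => Set.Finite.mem_toFinset _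
  have hFc : (As.pr K).ncard = F.card := Set.ncard_eq_toFinset_card _ hfin
  rw [hFc] at hasy
  set S : Finset ℤ := hsfin.toFinset with hSdef
  have hSm : ∀ t, t ∈ S ↔ t ∈ As.sol K := fun t => Set.Finite.mem_toFinset _
  have hSc : (As.sol K).ncard = S.card := Set.ncard_eq_toFinset_card _ hsfin
  rw [hSc] at hsasy
  set φ : ℤ × ℤ → ℤ := fun t => t.2 ^ 2 - t.1 ^ 3 with hφ
  set P := F.filter fun t => 0 ≤ t.2 with hP
  have hsym : ∀ t ∈ F, (t.1, -t.2) ∈ F := by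
    intro t ht
    rw [hFm] at ht ⊢
    obtain ⟨h1, h2⟩ := ht
    refine ⟨by simpa using h1, ?_⟩
    simpa using h2
  have hhalf := As.card_half F hsym
  have hZ := As.card_zero hK (F.filter fun t => t.2 = 0) (fun t ht => by
    rw [Finset.mem_filter, hFm] at ht
    exact ht)
  have hGP : G ⊆ P := fun t ht => Finset.mem_filter.2 ⟨(hFm t).2 (hG t ht).1, (hG t ht).2⟩
  have hsub : S ⊆ G.image φ ∪ (P \ G).image φ := by
    intro k hk
    rw [hSm] at hk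
    obtain ⟨h0, hkK, x, y, hxy⟩ := hk
    obtain ⟨m1, m2⟩ := As.mem_pr_abs h0 hkK hxy
    have hmem : ((x, |y|) : ℤ × ℤ) ∈ P := Finset.mem_filter.2 ⟨(hFm _).2 m1, abs_nonneg _⟩
    by_cases h : ((x, |y|) : ℤ × ℤ) ∈ G
    · exact Finset.mem_union_left _ (Finset.mem_image.2 ⟨_, h, m2⟩)
    · exact Finset.mem_union_right _ (Finset.mem_image.2 ⟨_, Finset.mem_sdiff.2 ⟨hmem, h⟩, m2⟩)
  have h1 := (Finset.card_le_card hsub).trans (Finset.card_union_le _ _)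
  have h2 := Finset.card_image_le (s := P \ G) (f := φ)
  have h3 := Finset.card_sdiff_add_card_eq_card hGP
  have h4 : (S.card : ℝ) + G.card ≤ ((G.image φ).card : ℝ) + P.card := by
    have : S.card + G.card ≤ (G.image φ).card + P.card := by omega
    exact_mod_cast this
  have hhalf' : (F.card : ℝ) + ((F.filter fun t => t.2 = 0).card : ℝ) = 2 * (P.card : ℝ) := by
    exact_mod_cast hhalf
  have hK0 : (0 : ℝ) < K := by linarith
  have hpow : 0 ≤ K ^ θ := Real.rpow_nonneg hK0.le _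
  have h13 : K ^ (1 / 3 : ℝ) ≤ K ^ θ := Real.rpow_le_rpow_of_exponent_le hK (by linarith)
  have b0 : A0 * K ^ θ ≤ |A0| * K ^ θ := mul_le_mul_of_nonneg_right (le_abs_self _) hpow
  have b1 : A1 * K ^ θ ≤ |A1| * K ^ θ := mul_le_mul_of_nonneg_right (le_abs_self _) hpow
  have c1 := (abs_le.1 hasy).2
  have c2 := (abs_le.1 hsasy).1
  have e1 : (|A0| / 2 + |A1| + 2) * K ^ θ = (|A0| * K ^ θ) / 2 + |A1| * K ^ θ + 2 * K ^ θ := by
    ring
  rw [e1]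
  linarith


/-- for `T ≥ 1` the size is `|y|` -/
theorem size_y {T : ℝ} (hT : 1 ≤ T) {k x y : ℤ} (hk : k ≠ 0) (h : y ^ 2 = x ^ 3 + k)
    (hm : T * |(k : ℝ)| ^ (1 / 2 : ℝ) < max |(x : ℝ)| |(y : ℝ)|) :
    T * |(k : ℝ)| ^ (1 / 2 : ℝ) < |(y : ℝ)| := by
  rcases lt_max_iff.1 hm with h1 | h1
  swap
  · exact h1
  refine h1.trans_le ?_
  have hk1 : (1 : ℝ) ≤ |(k : ℝ)| := by
    have : (1 : ℤ) ≤ |k| := Int.one_le_abs hk
    exact_mod_cast this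
  have hs : (1 : ℝ) ≤ |(k : ℝ)| ^ (1 / 2 : ℝ) := Real.one_le_rpow hk1 (by norm_num)
  have h2 : |(k : ℝ)| ^ (1 / 2 : ℝ) < |(x : ℝ)| := by
    refine lt_of_le_of_lt ?_ h1
    exact le_mul_of_one_le_left (by linarith) hT
  have h3 : |(k : ℝ)| < |(x : ℝ)| ^ 2 := by
    have h4 : (|(k : ℝ)| ^ (1 / 2 : ℝ)) ^ 2 < |(x : ℝ)| ^ 2 :=
      pow_lt_pow_left₀ h2 (by linarith) (by norm_num)
    rwa [← Real.sqrt_eq_rpow, Real.sq_sqrt (by linarith)] at h4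
  have h3' : |k| < x ^ 2 := by
    rw [sq_abs] at h3
    exact_mod_cast h3
  have hx1 : 1 < |x| := by
    have : (1 : ℝ) < |(x : ℝ)| := lt_of_le_of_lt hs h2
    exact_mod_cast this
  have h5 := abs_lt.1 h3'
  rcases le_or_gt 0 x with hx | hx
  · rw [abs_of_nonneg hx] at hx1
    have h6 : x ^ 2 ≤ y ^ 2 := by nlinarith
    have h7 : |x| ≤ |y| := sq_le_sq.1 h6
    exact_mod_cast h7
  · exfalso
    rw [abs_of_neg hx] at hx1
    nlinarith [sq_nonneg y]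

theorem bigT_eq {K T : ℝ} (hT : 1 ≤ T) :
    As.bigT T K = (fun t : ℤ × ℤ => t.2 ^ 2 - t.1 ^ 3) '' PT K T := by
  ext k
  constructor
  · rintro ⟨hk, hkK, x, y, hxy, hm⟩
    have h1 := size_y hT hk hxy hm
    obtain ⟨h2, h3⟩ := As.mem_pr_abs hk hkK hxy
    refine ⟨(x, |y|), ⟨h2, ?_⟩, h3⟩
    have e : (((|y| : ℤ) : ℝ)) ^ 2 - (x : ℝ) ^ 3 = (k : ℝ) := by
      rw [← h3]
      push_cast
      ring
    show T * |(((|y| : ℤ) : ℝ)) ^ 2 - (x : ℝ) ^ 3| ^ (1 / 2 : ℝ) < ((|y| : ℤ) : ℝ)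
    rw [e, Int.cast_abs]
    exact h1
  · rintro ⟨⟨x, y⟩, ⟨⟨h1, h2⟩, h3⟩, rfl⟩
    have e : (((y ^ 2 - x ^ 3 : ℤ)) : ℝ) = (y : ℝ) ^ 2 - (x : ℝ) ^ 3 := by push_cast; ring
    refine ⟨sub_ne_zero.2 h1, ?_, x, y, by ring, ?_⟩
    · show |(((y ^ 2 - x ^ 3 : ℤ)) : ℝ)| ≤ K
      rw [e]
      exact h2
    · show T * |(((y ^ 2 - x ^ 3 : ℤ)) : ℝ)| ^ (1 / 2 : ℝ) < max |(x : ℝ)| |(y : ℝ)|
      rw [e]
      exact lt_of_lt_of_le h3 ((le_abs_self _).trans (le_max_right _ _))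

/-- the law -/
theorem bigT_law {θ : ℝ} (hA : As.Asy θ) (hθ : 4 / 5 < θ) : ∃ A : ℝ, 0 ≤ A ∧ ∀ K : ℝ, 1 ≤ K →
    ∀ T : ℝ, 1 ≤ T → (As.bigT T K).Finite ∧
      |((As.bigT T K).ncard : ℝ) - Phi T * K ^ (5 / 6 : ℝ)| ≤ A * K ^ θ := by
  classical
  obtain ⟨A, hA0, H⟩ := card_PT hA hθ
  obtain ⟨B, hB0, H'⟩ := distinct hA hθ
  refine ⟨A + B, by positivity, fun K hK T hT => ?_⟩
  have hK0 : 0 < K := by linarith
  obtain ⟨hf, hc⟩ := H K hK T hT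
  have hfin : (As.bigT T K).Finite := by
    rw [bigT_eq hT]
    exact hf.image _
  refine ⟨hfin, ?_⟩
  have h1 : (As.bigT T K).ncard ≤ (PT K T).ncard := by
    rw [bigT_eq hT]
    exact Set.ncard_image_le hf
  have h2 := H' K hK hf.toFinset (fun t ht => by
    rw [Set.Finite.mem_toFinset] at ht
    exact ⟨ht.1, (PT_pos hT ht).le⟩)
  have h3 : (hf.toFinset.image fun t : ℤ × ℤ => t.2 ^ 2 - t.1 ^ 3).card = (As.bigT T K).ncard := by
    rw [bigT_eq hT, ← Set.ncard_coe_finset]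
    congr 1
    ext k
    simp only [Finset.coe_image, Set.Finite.coe_toFinset]
  rw [h3, ← Set.ncard_eq_toFinset_card _ hf] at h2
  have h1' : ((As.bigT T K).ncard : ℝ) ≤ ((PT K T).ncard : ℝ) := by exact_mod_cast h1
  have hθ0 : 0 ≤ K ^ θ := Real.rpow_nonneg hK0.le _
  have a := abs_le.1 hc
  have b1 : 0 ≤ A * K ^ θ := mul_nonneg hA0 hθ0
  have b2 : 0 ≤ B * K ^ θ := mul_nonneg hB0 hθ0
  rw [abs_le, add_mul]
  constructor <;> linarith [a.1, a.2]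

end Pool.Agent.Work.MP_f2148a_nt.Law
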