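import Mathlib
import Pool.Agent.Work.MP_f2148a_nt.Law.Val

/-!
# Law/Pow: the `k` with a solution of size larger than `C |k| ^ κ`
-/

set_option autoImplicit false

namespace Pool.Agent.Work.MP_f2148a_nt.Law

open Pool.Agent.Work.MP_f2148a_nt

/-- the `k`, `0 < |k| ≤ K`, with a solution of size larger than `C |k| ^ κ` -/
def V (κ C K : ℝ) : Set ℤ := {k | k ≠ 0 ∧ |(k : ℝ)| ≤ K ∧
  ∃ x y : ℤ, y ^ 2 = x ^ 3 + k ∧ C * |(k : ℝ)| ^ κ < max |(x : ℝ)| |(y : ℝ)|}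

private theorem one_le_abs {k : ℤ} (hk : k ≠ 0) : (1 : ℝ) ≤ |(k : ℝ)| := by
  have : (1 : ℤ) ≤ |k| := Int.one_le_abs hk
  exact_mod_cast this

theorem V_sub_sol (κ C K : ℝ) : V κ C K ⊆ As.sol K := by
  rintro k ⟨h0, h1, x, y, h2, -⟩
  exact ⟨h0, h1, x, y, h2⟩

/-- one dyadic step -/
private theorem step {κ C K : ℝ} (hκ : 1 / 2 < κ) (hC : 0 < C) (hK : 0 < K) :
    V κ C K ⊆ V κ C (K / 2) ∪ As.bigT (C * (K / 2) ^ (κ - 1 / 2)) K := by
  rintro k ⟨h0, h1, x, y, h2, h3⟩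
  by_cases h : |(k : ℝ)| ≤ K / 2
  · exact Or.inl ⟨h0, h, x, y, h2, h3⟩
  · refine Or.inr ⟨h0, h1, x, y, h2, lt_of_le_of_lt ?_ h3⟩
    push Not at h
    have hk := one_le_abs h0
    have e : |(k : ℝ)| ^ κ = |(k : ℝ)| ^ (κ - 1 / 2) * |(k : ℝ)| ^ (1 / 2 : ℝ) := by
      rw [← Real.rpow_add (by linarith)]
      congr 1
      ring
    have h4 : (K / 2) ^ (κ - 1 / 2) ≤ |(k : ℝ)| ^ (κ - 1 / 2) :=
      Real.rpow_le_rpow (by linarith) h.le (by linarith)
    rw [e, ← mul_assoc]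
    exact mul_le_mul_of_nonneg_right (mul_le_mul_of_nonneg_left h4 hC.le) (by positivity)

private theorem V_le {θ : ℝ} (hA : As.Asy θ) (hθ : 4 / 5 < θ) {κ C : ℝ} (hκ : 1 / 2 < κ) (hκ3 : κ < 3)
    (hC : 0 < C) : ∃ D : ℝ, 0 ≤ D ∧ ∀ K : ℝ, 1 ≤ K →
      ((V κ C K).ncard : ℝ) ≤ D * (K ^ (1 - κ / 3) + K ^ θ) := by
  obtain ⟨A, hA0, H⟩ := bigT_law hA hθ
  obtain ⟨A1, hA1⟩ := As.cnt hA hθ
  set s : ℝ := 1 - κ / 3 with hs
  have hs0 : 0 < s := by rw [hs]; linarith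
  -- the constants
  set K₁ : ℝ := 2 * max 1 (C ^ (-(κ - 1 / 2)⁻¹)) with hK₁
  have hK₁2 : 2 ≤ K₁ := by
    have := le_max_left (1 : ℝ) (C ^ (-(κ - 1 / 2)⁻¹))
    linarith
  set a : ℝ := 8 * (C ^ (-(1 / 3) : ℝ) * 2 ^ ((κ - 1 / 2) / 3)) with ha
  have ha0 : 0 ≤ a := by positivity
  have ps : (2 : ℝ) ^ (-s) < 1 := Real.rpow_lt_one_of_one_lt_of_neg (by norm_num) (by linarith)
  have pθ : (2 : ℝ) ^ (-θ) < 1 := Real.rpow_lt_one_of_one_lt_of_neg (by norm_num) (by linarith)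
  have hc0 : 0 ≤ As.c0 := As.c0_pos.le
  set D₀ : ℝ := As.c0 / 2 * K₁ ^ (5 / 6 : ℝ) + |A1| with hD₀
  have hD₀0 : 0 ≤ D₀ := by positivity
  set D₁ : ℝ := a / (1 - 2 ^ (-s)) with hD₁
  have hD₁0 : 0 ≤ D₁ := div_nonneg ha0 (by linarith)
  set D₂ : ℝ := A / (1 - 2 ^ (-θ)) with hD₂
  have hD₂0 : 0 ≤ D₂ := div_nonneg hA0 (by linarith)
  set D : ℝ := D₀ + D₁ + D₂ with hD
  have hD0 : 0 ≤ D := by positivity
  have hDa : D * 2 ^ (-s) + a ≤ D := by
    have h1 : D₁ * (1 - 2 ^ (-s)) = a := div_mul_cancel₀ _ (by linarith)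
    have h2 : D₁ * (1 - 2 ^ (-s)) ≤ D * (1 - 2 ^ (-s)) :=
      mul_le_mul_of_nonneg_right (by linarith) (by linarith)
    linarith
  have hDA : D * 2 ^ (-θ) + A ≤ D := by
    have h1 : D₂ * (1 - 2 ^ (-θ)) = A := div_mul_cancel₀ _ (by linarith)
    have h2 : D₂ * (1 - 2 ^ (-θ)) ≤ D * (1 - 2 ^ (-θ)) :=
      mul_le_mul_of_nonneg_right (by linarith) (by linarith)
    linarith
  have main : ∀ n : ℕ, ∀ K : ℝ, 1 ≤ K → K < 2 ^ n →
      ((V κ C K).ncard : ℝ) ≤ D * (K ^ s + K ^ θ) := by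
    intro n
    induction n with
    | zero =>
      intro K hK hK'
      norm_num at hK'
      linarith
    | succ n ih =>
      intro K hK hKn
      have hK0 : 0 < K := by linarith
      have hKθ : 0 ≤ K ^ θ := by positivity
      have hKs : 0 ≤ K ^ s := by positivity
      rcases le_or_gt K K₁ with hb | hb
      · -- small K
        obtain ⟨hf, hc⟩ := hA1 K hK
        have h1 := Set.ncard_le_ncard (V_sub_sol κ C K) hf
        have h1' : ((V κ C K).ncard : ℝ) ≤ ((As.sol K).ncard : ℝ) := by exact_mod_cast h1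
        have h2 := (abs_le.1 hc).2
        have h3 : K ^ (5 / 6 : ℝ) ≤ K₁ ^ (5 / 6 : ℝ) := Real.rpow_le_rpow hK0.le hb (by norm_num)
        have h4 : As.c0 / 2 * K ^ (5 / 6 : ℝ) ≤ As.c0 / 2 * K₁ ^ (5 / 6 : ℝ) :=
          mul_le_mul_of_nonneg_left h3 (by linarith)
        have h5 : A1 * K ^ θ ≤ |A1| * K ^ θ := mul_le_mul_of_nonneg_right (le_abs_self _) hKθ
        have h6 : (1 : ℝ) ≤ K ^ θ := Real.one_le_rpow hK (by linarith)
        have h7 : As.c0 / 2 * K₁ ^ (5 / 6 : ℝ) ≤ As.c0 / 2 * K₁ ^ (5 / 6 : ℝ) * K ^ θ :=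
          le_mul_of_one_le_right (by positivity) h6
        have h8 : D₀ * K ^ θ ≤ D * (K ^ s + K ^ θ) := by
          have e1 : D₀ * K ^ θ ≤ D * K ^ θ := mul_le_mul_of_nonneg_right (by linarith) hKθ
          have e2 : 0 ≤ D * K ^ s := mul_nonneg hD0 hKs
          rw [mul_add]
          linarith
        have h9 : D₀ * K ^ θ = As.c0 / 2 * K₁ ^ (5 / 6 : ℝ) * K ^ θ + |A1| * K ^ θ := by
          rw [hD₀]
          ring
        linarith
      · -- the dyadic step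
        have hK2 : 1 ≤ K / 2 := by linarith
        have hKn' : K / 2 < 2 ^ n := by
          rw [pow_succ] at hKn
          linarith
        have hκ0 : 0 < κ - 1 / 2 := by linarith
        set T : ℝ := C * (K / 2) ^ (κ - 1 / 2) with hT
        have hT1 : 1 ≤ T := by
          have h1 : C ^ (-(κ - 1 / 2)⁻¹) ≤ K / 2 := by
            have := le_max_right (1 : ℝ) (C ^ (-(κ - 1 / 2)⁻¹))
            linarith
          have h2 : (C ^ (-(κ - 1 / 2)⁻¹)) ^ (κ - 1 / 2) ≤ (K / 2) ^ (κ - 1 / 2) :=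
            Real.rpow_le_rpow (by positivity) h1 hκ0.le
          rw [← Real.rpow_mul hC.le] at h2
          have h3 : -(κ - 1 / 2)⁻¹ * (κ - 1 / 2) = -1 := by
            rw [neg_mul, inv_mul_cancel₀ hκ0.ne']
          rw [h3, Real.rpow_neg_one] at h2
          have h4 := mul_le_mul_of_nonneg_left h2 hC.le
          rwa [mul_inv_cancel₀ hC.ne'] at h4
        obtain ⟨hf, hc⟩ := H K hK T hT1
        have hfV : (V κ C (K / 2)).Finite := (hA1 (K / 2) hK2).1.subset (V_sub_sol _ _ _)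
        have h1 := Set.ncard_le_ncard (step hκ hC hK0) (hfV.union hf)
        have h2 := h1.trans (Set.ncard_union_le _ _)
        have h2' : ((V κ C K).ncard : ℝ) ≤ ((V κ C (K / 2)).ncard : ℝ) + ((As.bigT T K).ncard : ℝ) := by
          exact_mod_cast h2
        have h3 := ih (K / 2) hK2 hKn'
        have h4 := (abs_le.1 hc).2
        have h5 := mul_le_mul_of_nonneg_right (Phi_le hT1) (show 0 ≤ K ^ (5 / 6 : ℝ) by positivity)
        have h6 : 8 * T ^ (-(1 / 3) : ℝ) * K ^ (5 / 6 : ℝ) = a * K ^ s := by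
          have e1 : T ^ (-(1 / 3) : ℝ) =
              C ^ (-(1 / 3) : ℝ) * (K ^ (-(κ - 1 / 2) / 3) * 2 ^ ((κ - 1 / 2) / 3)) := by
            rw [hT, Real.mul_rpow hC.le (by positivity), ← Real.rpow_mul (by linarith)]
            congr 1
            have e2 : (κ - 1 / 2) * -(1 / 3) = -(κ - 1 / 2) / 3 := by ring
            rw [e2, Real.div_rpow hK0.le (by norm_num), div_eq_mul_inv, ← Real.rpow_neg (by norm_num)]
            congr 2
            ring
          have e3 : K ^ (-(κ - 1 / 2) / 3) * K ^ (5 / 6 : ℝ) = K ^ s := by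
            rw [← Real.rpow_add hK0, hs]
            congr 1
            ring
          rw [e1, ha, ← e3]
          ring
        have h7 : (K / 2) ^ s = 2 ^ (-s) * K ^ s := by
          rw [Real.div_rpow hK0.le (by norm_num), Real.rpow_neg (by norm_num), div_eq_mul_inv]
          ring
        have h8 : (K / 2) ^ θ = 2 ^ (-θ) * K ^ θ := by
          rw [Real.div_rpow hK0.le (by norm_num), Real.rpow_neg (by norm_num), div_eq_mul_inv]
          ring
        rw [h7, h8] at h3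
        have h9 := mul_le_mul_of_nonneg_right hDa hKs
        have h10 := mul_le_mul_of_nonneg_right hDA hKθ
        have e9 : D * (2 ^ (-s) * K ^ s + 2 ^ (-θ) * K ^ θ) + (a * K ^ s + A * K ^ θ) =
            (D * 2 ^ (-s) + a) * K ^ s + (D * 2 ^ (-θ) + A) * K ^ θ := by ring
        have e10 : D * (K ^ s + K ^ θ) = D * K ^ s + D * K ^ θ := by ring
        rw [e10]
        linarith
  refine ⟨D, hD0, fun K hK => ?_⟩
  obtain ⟨n, hn⟩ := pow_unbounded_of_one_lt K (show (1 : ℝ) < 2 by norm_num)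
  exact main n K hK hn

/-- few `k` have a solution of size larger than `C |k| ^ κ`, `κ > 1 / 2` -/
theorem V_law {θ : ℝ} (hA : As.Asy θ) (hθ : 4 / 5 < θ) {κ C : ℝ} (hκ : 1 / 2 < κ) (hC : 0 < C) :
    ∃ D : ℝ, ∀ K : ℝ, 1 ≤ K → ((V κ C K).ncard : ℝ) ≤ D * (K ^ (1 - κ / 3) + K ^ θ) := by
  rcases lt_or_ge κ 3 with h3 | h3
  · obtain ⟨D, -, h⟩ := V_le hA hθ hκ h3 hC
    exact ⟨D, h⟩
  · obtain ⟨D, hD, h⟩ := V_le hA hθ (κ := 2) (C := C) (by norm_num) (by norm_num) hC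
    obtain ⟨A1, hA1⟩ := As.cnt hA hθ
    refine ⟨2 * D, fun K hK => ?_⟩
    have hK0 : 0 < K := by linarith
    have hsub : V κ C K ⊆ V 2 C K := by
      rintro k ⟨h0, h1, x, y, h2, h4⟩
      refine ⟨h0, h1, x, y, h2, lt_of_le_of_lt ?_ h4⟩
      exact mul_le_mul_of_nonneg_left
        (Real.rpow_le_rpow_of_exponent_le (one_le_abs h0) (by linarith)) hC.le
    have hf : (V 2 C K).Finite := (hA1 K hK).1.subset (V_sub_sol _ _ _)
    have h1 := Set.ncard_le_ncard hsub hf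
    have h1' : ((V κ C K).ncard : ℝ) ≤ ((V 2 C K).ncard : ℝ) := by exact_mod_cast h1
    have h2 := h K hK
    have h4 : K ^ (1 - 2 / 3 : ℝ) ≤ K ^ θ := Real.rpow_le_rpow_of_exponent_le hK (by linarith)
    have h5 : 0 ≤ K ^ (1 - κ / 3) := by positivity
    have h6 : D * (K ^ (1 - 2 / 3 : ℝ) + K ^ θ) ≤ D * (2 * K ^ θ) :=
      mul_le_mul_of_nonneg_left (by linarith) hD
    have h7 : D * (2 * K ^ θ) ≤ 2 * D * (K ^ (1 - κ / 3) + K ^ θ) := by
      have : 0 ≤ D * K ^ (1 - κ / 3) := mul_nonneg hD h5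
      have e : 2 * D * (K ^ (1 - κ / 3) + K ^ θ) = 2 * (D * K ^ (1 - κ / 3)) + D * (2 * K ^ θ) := by
        ring
      rw [e]
      linarith
    linarith

end Pool.Agent.Work.MP_f2148a_nt.Law
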